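import Pool.Agent.H10.ABY.Stmts

/-!
# ABY, module DYA: triples in one dyadic range of heights
-/

set_option autoImplicit false

namespace Pool.ABY

open Finset Pool.Agent.H98.ABCR Pool.SHA

private lemma main_kl_full (K : Finset ℕ) (n : ℕ) (hK : n.primeFactors ⊆ K) :
    kl K n = Real.log n := by
  unfold kl
  rw [Real.log_nat_eq_sum_factorization, Finsupp.sum, Nat.support_factorization]
  symm
  apply Finset.sum_subset hK
  intro q _ hq
  rw [← Nat.support_factorization, Finsupp.notMem_support_iff] at hq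
  rw [hq]; simp

private lemma main_nn_ne (v : ℕ × ℕ) (hv : IsTri v) : nn v ≠ 0 := by
  obtain ⟨ha, hb, _⟩ := hv
  unfold nn
  positivity

private lemma main_coord_dvd (v : ℕ × ℕ) (s : Fin 3) : coord v s ∣ nn v := by
  unfold nn
  fin_cases s
  · exact ⟨v.2 * (v.1 + v.2), by show _ = v.1 * _; ring⟩
  · exact ⟨v.1 * (v.1 + v.2), by show _ = v.2 * _; ring⟩
  · exact ⟨v.1 * v.2, by show _ = (v.1 + v.2) * _; ring⟩

private lemma main_mass_full (v : ℕ × ℕ) (hv : IsTri v) :
    3 * hh v - Real.log 2 ≤ mass (nn v).primeFactors v := by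
  have hnn := main_nn_ne v hv
  have hsub : ∀ s, (coord v s).primeFactors ⊆ (nn v).primeFactors :=
    fun s => Nat.primeFactors_mono (main_coord_dvd v s) hnn
  obtain ⟨ha, hb, _⟩ := hv
  have ha' : (0 : ℝ) < (v.1 : ℝ) := by exact_mod_cast ha
  have hb' : (0 : ℝ) < (v.2 : ℝ) := by exact_mod_cast hb
  unfold mass
  rw [Fin.sum_univ_three, main_kl_full _ _ (hsub 0), main_kl_full _ _ (hsub 1),
    main_kl_full _ _ (hsub 2)]
  have e0 : coord v 0 = v.1 := rfl
  have e1 : coord v 1 = v.2 := rfl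
  have e2 : coord v 2 = v.1 + v.2 := rfl
  rw [e0, e1, e2]
  have hhd : hh v = Real.log ((v.1 + v.2 : ℕ) : ℝ) := rfl
  rw [← hhd]
  rcases le_total v.1 v.2 with h | h
  · rw [min_eq_left h]
    have h1 : hh v ≤ Real.log 2 + Real.log v.2 := by
      rw [hhd, ← Real.log_mul (by norm_num) hb'.ne']
      apply Real.log_le_log
      · push_cast; positivity
      · push_cast
        have : (v.1 : ℝ) ≤ v.2 := by exact_mod_cast h
        linarith
    linarith
  · rw [min_eq_right h]
    have h1 : hh v ≤ Real.log 2 + Real.log v.1 := by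
      rw [hhd, ← Real.log_mul (by norm_num) ha'.ne']
      apply Real.log_le_log
      · push_cast; positivity
      · push_cast
        have : (v.2 : ℝ) ≤ v.1 := by exact_mod_cast h
        linarith
    linarith

private lemma main_RR_pos (v : ℕ × ℕ) : 0 < RR v := by
  unfold RR rad
  exact Finset.prod_pos fun p hp => (Nat.prime_of_mem_primeFactors hp).pos

private lemma main_RR_pf (v : ℕ × ℕ) : (RR v).primeFactors = (nn v).primeFactors := by
  unfold RR rad
  exact Nat.primeFactors_prod fun p hp => Nat.prime_of_mem_primeFactors hp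

private lemma main_primes (Cg ε : ℝ) (hC : 1 ≤ Cg) (hε : 0 < ε) : ∃ D : ℝ, 1 ≤ D ∧
    ∀ K : Finset ℕ, (∀ q ∈ K, q.Prime) → Cg ^ K.card ≤ D * ((∏ q ∈ K, q : ℕ) : ℝ) ^ ε := by
  classical
  refine ⟨Cg ^ (⌈Cg ^ (1 / ε)⌉₊ + 1), one_le_pow₀ hC, ?_⟩
  intro K hK
  obtain ⟨Y, hY⟩ : ∃ Y : ℕ, Y = ⌈Cg ^ (1 / ε)⌉₊ := ⟨_, rfl⟩
  rw [← hY]
  have h1 : Cg ^ K.card ≤ ∏ q ∈ K, ((if q ≤ Y then Cg else 1) * ((q : ℝ) ^ ε)) := by
    rw [← Finset.prod_const]
    apply Finset.prod_le_prod (fun _ _ => by linarith)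
    intro q hq
    have hq1 : (1 : ℝ) ≤ q := by exact_mod_cast (hK q hq).one_lt.le
    have hqe : 1 ≤ (q : ℝ) ^ ε := Real.one_le_rpow hq1 hε.le
    split_ifs with h
    · nlinarith
    · rw [one_mul]
      have h2 : Cg ^ (1 / ε) ≤ q := by
        have h3 : Cg ^ (1 / ε) ≤ (Y : ℝ) := by rw [hY]; exact Nat.le_ceil _
        have h4 : (Y : ℝ) ≤ q := by exact_mod_cast (not_le.1 h).le
        linarith
      calc Cg = (Cg ^ (1 / ε)) ^ ε := by
            rw [← Real.rpow_mul (by linarith), one_div, inv_mul_cancel₀ hε.ne', Real.rpow_one]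
        _ ≤ (q : ℝ) ^ ε := Real.rpow_le_rpow (by positivity) h2 hε.le
  refine h1.trans ?_
  rw [Finset.prod_mul_distrib]
  have h2 : ∏ q ∈ K, (if q ≤ Y then Cg else 1) ≤ Cg ^ (Y + 1) := by
    rw [← Finset.prod_filter, Finset.prod_const]
    apply pow_le_pow_right₀ hC
    calc (K.filter (fun q => q ≤ Y)).card ≤ (Finset.range (Y + 1)).card := by
          apply Finset.card_le_card
          intro q hq
          rw [Finset.mem_filter] at hq
          rw [Finset.mem_range]; omega
      _ = Y + 1 := Finset.card_range _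
  have h3 : ∏ q ∈ K, ((q : ℝ) ^ ε) = ((∏ q ∈ K, q : ℕ) : ℝ) ^ ε := by
    rw [Nat.cast_prod, Real.finsetProd_rpow]
    intro q _; positivity
  rw [h3]
  exact mul_le_mul_of_nonneg_right h2 (by positivity)

private lemma main_prod_le (v : ℕ × ℕ) (K : Finset ℕ)
    (hK : K ⊆ (nn v).primeFactors) : (∏ q ∈ K, q) ≤ RR v := by
  unfold RR rad
  have h1 := Finset.prod_le_prod_of_subset_of_one_le' hK
    (f := fun q => q) (fun p hp _ => (Nat.prime_of_mem_primeFactors hp).one_lt.le)
  exact h1

private lemma main_generic (hGP : S_GPD) : ∃ C : ℝ, 1 ≤ C ∧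
    ∀ (X h0 : ℝ) (F : Finset (ℕ × ℕ)), 1 ≤ X → 0 < h0 →
      (∀ v ∈ F, IsTri v ∧ (RR v : ℝ) ≤ X ∧ h0 ≤ hh v ∧ hh v ≤ 2 * h0 ∧ 2 ≤ hh v) →
      (F.card : ℝ) ≤ C * X ^ C := by
  classical
  obtain ⟨C, hC, hG⟩ := hGP (1 / 2) (by norm_num) (by norm_num)
  have hL0 : 0 ≤ Real.logb 2 C := Real.logb_nonneg (by norm_num) hC
  have hCL : (2 : ℝ) ^ (Real.logb 2 C) = C :=
    Real.rpow_logb (by norm_num) (by norm_num) (by linarith)
  refine ⟨C + (1 + Real.logb 2 C), by linarith, ?_⟩
  intro X h0 F hX hh0 hF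
  have hX0 : 0 < X := by linarith
  have hcard : F.card = ∑ m ∈ Icc 1 ⌊X⌋₊, (F.filter (fun v => RR v = m)).card := by
    apply Finset.card_eq_sum_card_fiberwise
    intro v hv
    rw [Finset.mem_coe, Finset.mem_Icc]
    exact ⟨main_RR_pos v, Nat.le_floor (hF v hv).2.1⟩
  have hfib : ∀ m ∈ Icc 1 ⌊X⌋₊, ((F.filter (fun v => RR v = m)).card : ℝ) ≤
      C * X ^ (Real.logb 2 C) := by
    intro m hm
    rw [Finset.mem_Icc] at hm
    have h1 := hG h0 m.primeFactors (F.filter (fun v => RR v = m)) hh0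
      (fun q hq => Nat.prime_of_mem_primeFactors hq)
      (by
        intro v hv
        rw [Finset.mem_filter] at hv
        obtain ⟨hvF, hvm⟩ := hv
        obtain ⟨ht, _, hhl, hhH, hh2⟩ := hF v hvF
        refine ⟨ht, hhl, hhH, ?_⟩
        rw [← hvm, main_RR_pf]
        have := main_mass_full v ht
        have hl2 := Real.log_two_lt_d9
        linarith)
    refine h1.trans ?_
    have hcardK : (2 : ℝ) ^ m.primeFactors.card ≤ X := by
      have hm1 : 2 ^ m.primeFactors.card ≤ m := by
        have h2 : 2 ^ m.primeFactors.card ≤ ∏ p ∈ m.primeFactors, p :=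
          Finset.pow_card_le_prod _ _ _ (fun p hp => (Nat.prime_of_mem_primeFactors hp).two_le)
        exact h2.trans (Nat.le_of_dvd (by omega) (Nat.prod_primeFactors_dvd m))
      have h3 : (m : ℝ) ≤ X := le_trans (by exact_mod_cast hm.2) (Nat.floor_le hX0.le)
      exact le_trans (by exact_mod_cast hm1) h3
    have hpow : C ^ m.primeFactors.card ≤ X ^ (Real.logb 2 C) := by
      calc C ^ m.primeFactors.card = ((2 : ℝ) ^ (Real.logb 2 C)) ^ m.primeFactors.card := by
            rw [hCL]
        _ = ((2 : ℝ) ^ m.primeFactors.card) ^ (Real.logb 2 C) := by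
            rw [← Real.rpow_natCast, ← Real.rpow_natCast, ← Real.rpow_mul (by norm_num),
              ← Real.rpow_mul (by norm_num), mul_comm]
        _ ≤ X ^ (Real.logb 2 C) := Real.rpow_le_rpow (by positivity) hcardK hL0
    calc C ^ (m.primeFactors.card + 1) = C * C ^ m.primeFactors.card := by rw [pow_succ]; ring
      _ ≤ C * X ^ (Real.logb 2 C) := mul_le_mul_of_nonneg_left hpow (by linarith)
  have hsum : (F.card : ℝ) ≤ X * (C * X ^ (Real.logb 2 C)) := by
    rw [hcard, Nat.cast_sum]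
    calc ∑ m ∈ Icc 1 ⌊X⌋₊, ((F.filter (fun v => RR v = m)).card : ℝ)
        ≤ ∑ _m ∈ Icc 1 ⌊X⌋₊, C * X ^ (Real.logb 2 C) := Finset.sum_le_sum hfib
      _ = (⌊X⌋₊ : ℝ) * (C * X ^ (Real.logb 2 C)) := by
          rw [Finset.sum_const, nsmul_eq_mul, Nat.card_Icc]; simp
      _ ≤ X * (C * X ^ (Real.logb 2 C)) := by
          apply mul_le_mul_of_nonneg_right (Nat.floor_le hX0.le) (by positivity)
  refine hsum.trans ?_
  have e : X * (C * X ^ (Real.logb 2 C)) = C * X ^ (1 + Real.logb 2 C) := by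
    rw [Real.rpow_add hX0, Real.rpow_one]; ring
  rw [e]
  apply mul_le_mul (by linarith) _ (by positivity) (by linarith)
  exact Real.rpow_le_rpow_of_exponent_le hX (by linarith)

/-- triples in one dyadic range of heights -/
theorem dya_thm (hKN : S_KNY) (hON : S_ONR) (hGP : S_GPD) (hTR : S_TRY) : S_DYA := by
  classical
  intro ε0 hε0
  obtain ⟨ε, hεdef⟩ : ∃ ε : ℝ, ε = min ε0 1 := ⟨_, rfl⟩
  have hε : 0 < ε := by rw [hεdef]; exact lt_min hε0 one_pos
  have hε1 : ε ≤ 1 := by rw [hεdef]; exact min_le_right _ _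
  have hεε0 : ε ≤ ε0 := by rw [hεdef]; exact min_le_left _ _
  obtain ⟨C0, hC0, hT⟩ := hTR
  obtain ⟨CG, hCG, hG⟩ := main_generic hGP
  obtain ⟨δ, hδ0, hδ1, hK⟩ := hKN (ε / 4) (by linarith) (by linarith)
  obtain ⟨Cd, hCd, hGd⟩ := hGP δ hδ0 hδ1
  obtain ⟨D, hD, hDp⟩ := main_primes Cd (ε / 4) hCd (by linarith)
  obtain ⟨c, hcdef⟩ : ∃ c : ℝ, c = (ε / (4 * C0)) ^ 2 / 2 := ⟨_, rfl⟩
  have hC0pos : 0 < C0 := by linarith
  have hc : 0 < c := by rw [hcdef]; positivity
  obtain ⟨X0, hX0, hF⟩ := hON δ (ε / 4) c hδ0 (by linarith) hc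
  -- threshold
  obtain ⟨X1, hX13, hX10, hX1l⟩ : ∃ X1 : ℝ, 3 ≤ X1 ∧ X0 ≤ X1 ∧
      ∀ X, X1 ≤ X → 1 / δ ≤ c * Real.log X ^ 2 := by
    refine ⟨max (max 3 X0) (Real.exp (Real.sqrt ((1 / δ) / c))), ?_, ?_, ?_⟩
    · exact le_trans (le_max_left 3 X0) (le_max_left _ _)
    · exact le_trans (le_max_right 3 X0) (le_max_left _ _)
    · intro X hX
      have h1 : Real.exp (Real.sqrt ((1 / δ) / c)) ≤ X := le_trans (le_max_right _ _) hX
      have h2 : Real.sqrt ((1 / δ) / c) ≤ Real.log X :=
        (Real.le_log_iff_exp_le (lt_of_lt_of_le (Real.exp_pos _) h1)).2 h1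
      have h3 : (1 / δ) / c ≤ Real.log X ^ 2 := by
        rw [← Real.sq_sqrt (show 0 ≤ (1 / δ) / c by positivity)]
        exact pow_le_pow_left₀ (Real.sqrt_nonneg _) h2 2
      rw [div_le_iff₀ hc] at h3
      linarith
  obtain ⟨E, hE⟩ : ∃ E : ℝ, E = Real.exp (C0 * Real.sqrt 2) := ⟨_, rfl⟩
  have hE0 : 0 < E := by rw [hE]; exact Real.exp_pos _
  refine ⟨6 + 6 * E + CG * X1 ^ CG + (Cd * D + 3 * (Cd ^ 2 * D)), ?_, ?_⟩
  · have h1 : 0 ≤ Cd * D := by positivity
    have h2 : 0 ≤ CG * X1 ^ CG := by positivity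
    have h3 : 0 ≤ Cd ^ 2 * D := by positivity
    linarith
  intro X Y h0 F hX hY hh0 hFv
  have hXpos : 0 < X := by linarith
  obtain ⟨R, hR⟩ : ∃ R : ℝ, R = Real.sqrt (X * Y) := ⟨_, rfl⟩
  have hXY : 1 ≤ X * Y := by nlinarith
  have hR1 : 1 ≤ R := by rw [hR]; exact Real.one_le_sqrt.2 hXY
  rw [mul_assoc, ← hR]
  obtain ⟨Z, hZ⟩ : ∃ Z : ℝ, Z = X ^ ε0 * R := ⟨_, rfl⟩
  rw [← hZ]
  have hmono : ∀ α : ℝ, α ≤ ε0 → X ^ α * R ≤ Z := by
    intro α h1
    rw [hZ]
    exact mul_le_mul_of_nonneg_right (Real.rpow_le_rpow_of_exponent_le hX h1) (by linarith)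
  have hRZ : R ≤ Z := by
    have := hmono 0 hε0.le
    rwa [Real.rpow_zero, one_mul] at this
  have hZ1 : 1 ≤ Z := hR1.trans hRZ
  have p1 : 0 ≤ 6 * E * Z := by positivity
  have p2 : 0 ≤ CG * X1 ^ CG * Z := by positivity
  have p3 : 0 ≤ Cd * D * Z := by positivity
  have p4 : 0 ≤ Cd ^ 2 * D * Z := by positivity
  rcases lt_or_ge X X1 with hlt | hge
  · -- small X
    have hsplit : F.card = (F.filter (fun v => hh v ≤ 2)).card +
        (F.filter (fun v => ¬ hh v ≤ 2)).card := (Finset.card_filter_add_card_filter_not _).symm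
    have h1 := hT X Y 2 (F.filter (fun v => hh v ≤ 2)) hX hY (by norm_num) (by
      intro v hv
      rw [Finset.mem_filter] at hv
      exact ⟨(hFv v hv.1).1, (hFv v hv.1).2.1, (hFv v hv.1).2.2.1, hv.2⟩)
    have h2 := hG X h0 (F.filter (fun v => ¬ hh v ≤ 2)) hX hh0 (by
      intro v hv
      rw [Finset.mem_filter] at hv
      obtain ⟨a1, a2, _, a4, a5⟩ := hFv v hv.1
      exact ⟨a1, a2, a4, a5, (not_le.1 hv.2).le⟩)
    rw [hsplit]; push_cast
    rw [← hE, ← hR] at h1
    have h3 : 6 * R * E ≤ 6 * E * Z := by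
      calc 6 * R * E = 6 * E * R := by ring
        _ ≤ 6 * E * Z := mul_le_mul_of_nonneg_left hRZ (by positivity)
    have h4 : CG * X ^ CG ≤ CG * X1 ^ CG * Z := by
      have h5 : CG * X ^ CG ≤ CG * X1 ^ CG := by
        apply mul_le_mul_of_nonneg_left _ (by linarith)
        exact Real.rpow_le_rpow hXpos.le hlt.le (by linarith)
      have h6 : 0 ≤ CG * X1 ^ CG := by positivity
      nlinarith
    nlinarith
  · -- large X
    have hX3 : 3 ≤ X := hX13.trans hge
    have hXX0 : X0 ≤ X := hX10.trans hge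
    have hlogX : 0 ≤ Real.log X := Real.log_nonneg hX
    have hl := hX1l X hge
    have hδi : 1 ≤ 1 / δ := by rw [le_div_iff₀ hδ0]; linarith
    rcases le_or_gt h0 (c * Real.log X ^ 2) with hsm | hlg
    · -- small heights
      have h1 := hT X Y (2 * (c * Real.log X ^ 2)) F hX hY (by linarith) (by
        intro v hv
        obtain ⟨a1, a2, a3, a4, a5⟩ := hFv v hv
        exact ⟨a1, a2, a3, by linarith⟩)
      have h2 : Real.sqrt (2 * (c * Real.log X ^ 2)) = ε / (4 * C0) * Real.log X := by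
        have e1 : 2 * (c * Real.log X ^ 2) = (ε / (4 * C0) * Real.log X) ^ 2 := by
          rw [hcdef]; ring
        rw [e1, Real.sqrt_sq (by positivity)]
      have h3 : Real.exp (C0 * Real.sqrt (2 * (c * Real.log X ^ 2))) = X ^ (ε / 4) := by
        rw [h2, Real.rpow_def_of_pos hXpos]
        congr 1
        field_simp
      rw [h3, ← hR] at h1
      have := hmono (ε / 4) (by linarith)
      nlinarith
    · -- large heights
      have hFp : ∀ v ∈ F, 1 / δ ≤ hh v := by
        intro v hv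
        have := (hFv v hv).2.2.2.1
        linarith
      have hchoice : ∀ v, ∃ K : Finset ℕ, v ∈ F → K ⊆ (nn v).primeFactors ∧
          ((∏ q ∈ K, q : ℕ) : ℝ) ≤ X ^ (ε / 4) * R ∧
          ((2 + δ) * hh v ≤ mass K v ∨
            ∃ (i : Fin 3) (r : ℕ), r ∈ (nn v).primeFactors ∧ r ∉ K ∧
              δ * hh v ≤ kl K (coord v i) ∧ Free1 K i r v ∧ (2 + δ) * hh v ≤
                mass (insert r K) v) := by
        intro v
        by_cases hv : v ∈ F
        · obtain ⟨a1, a2, a3, _, _⟩ := hFv v hv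
          obtain ⟨K, hK1, hK2⟩ := hK X Y v hX3 hY a1 a2 a3 (hFp v hv)
          rw [← hR] at hK2
          exact ⟨K, fun _ => ⟨hK1, hK2⟩⟩
        · exact ⟨∅, fun h' => absurd h' hv⟩
      choose Kf hKf using hchoice
      have hKprime : ∀ K ∈ F.image Kf, ∀ q ∈ K, q.Prime := by
        intro K hKm q hq
        rw [Finset.mem_image] at hKm
        obtain ⟨v, hv, rfl⟩ := hKm
        exact Nat.prime_of_mem_primeFactors ((hKf v hv).1 hq)
      have hKprod : ∀ K ∈ F.image Kf, ((∏ q ∈ K, q : ℕ) : ℝ) ≤ X ^ (ε / 4) * R := by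
        intro K hKm
        rw [Finset.mem_image] at hKm
        obtain ⟨v, hv, rfl⟩ := hKm
        exact (hKf v hv).2.1
      have hKX : ∀ K ∈ F.image Kf, ((∏ q ∈ K, q : ℕ) : ℝ) ≤ X := by
        intro K hKm
        rw [Finset.mem_image] at hKm
        obtain ⟨v, hv, rfl⟩ := hKm
        have h1 := main_prod_le v (Kf v) (hKf v hv).1
        have h2 : ((∏ q ∈ Kf v, q : ℕ) : ℝ) ≤ (RR v : ℝ) := by exact_mod_cast h1
        exact h2.trans (hFv v hv).2.1
      have hScard : ((F.image Kf).card : ℝ) ≤ X ^ (ε / 4) * R := by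
        have h1 : (F.image Kf).card ≤ (Icc 1 ⌊X ^ (ε / 4) * R⌋₊).card := by
          apply Finset.card_le_card_of_injOn (fun K => ∏ q ∈ K, q)
          · intro K hKm
            have hKm' := Finset.mem_coe.1 hKm
            rw [Finset.mem_coe, Finset.mem_Icc]
            refine ⟨Finset.prod_pos fun q hq => (hKprime K hKm' q hq).pos, ?_⟩
            exact Nat.le_floor (hKprod K hKm')
          · intro K1 h1 K2 h2 h12
            have e1 := Nat.primeFactors_prod (hKprime K1 (Finset.mem_coe.1 h1))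
            have e2 := Nat.primeFactors_prod (hKprime K2 (Finset.mem_coe.1 h2))
            simp only at h12
            rw [← e1, ← e2, h12]
        rw [Nat.card_Icc, Nat.add_sub_cancel] at h1
        exact le_trans (by exact_mod_cast h1) (Nat.floor_le (by positivity))
      have hCdK : ∀ K ∈ F.image Kf, Cd ^ K.card ≤ D * X ^ (ε / 4) := by
        intro K hKm
        refine (hDp K (hKprime K hKm)).trans ?_
        apply mul_le_mul_of_nonneg_left _ (by linarith)
        exact Real.rpow_le_rpow (by positivity) (hKX K hKm) (by positivity)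
      have hfib : ∀ K ∈ F.image Kf, ((F.filter (fun v => Kf v = K)).card : ℝ) ≤
          (Cd * D + 3 * (Cd ^ 2 * D)) * X ^ (ε / 2) := by
        intro K hKm
        obtain ⟨G, hGdef⟩ : ∃ G : Finset (ℕ × ℕ), G = F.filter (fun v => Kf v = K) := ⟨_, rfl⟩
        have hGm : ∀ v ∈ G, v ∈ F ∧ Kf v = K := by
          intro v hv; rw [hGdef, Finset.mem_filter] at hv; exact hv
        rw [← hGdef]
        have hsp : G.card = (G.filter (fun v => (2 + δ) * hh v ≤ mass K v)).card +
            (G.filter (fun v => ¬ (2 + δ) * hh v ≤ mass K v)).card :=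
          (Finset.card_filter_add_card_filter_not _).symm
        have hB := hGd h0 K (G.filter (fun v => (2 + δ) * hh v ≤ mass K v)) hh0
          (hKprime K hKm) (by
            intro v hv
            rw [Finset.mem_filter] at hv
            obtain ⟨a1, _, _, a4, a5⟩ := hFv v (hGm v hv.1).1
            exact ⟨a1, a4, a5, hv.2⟩)
        -- the second alternative
        obtain ⟨G2, hG2⟩ : ∃ G2 : Finset (ℕ × ℕ),
            G2 = G.filter (fun v => ¬ (2 + δ) * hh v ≤ mass K v) := ⟨_, rfl⟩
        have hch : ∀ v, ∃ ir : Fin 3 × ℕ, v ∈ G2 → ir.2 ∈ (nn v).primeFactors ∧ ir.2 ∉ K ∧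
            δ * hh v ≤ kl K (coord v ir.1) ∧ Free1 K ir.1 ir.2 v ∧
            (2 + δ) * hh v ≤ mass (insert ir.2 K) v ∧ K ⊆ (nn v).primeFactors := by
          intro v
          by_cases hv : v ∈ G2
          · have hv' := hv
            rw [hG2, Finset.mem_filter] at hv'
            obtain ⟨hvF, hvK⟩ := hGm v hv'.1
            obtain ⟨k1, _, k3⟩ := hKf v hvF
            rw [hvK] at k1 k3
            rcases k3 with k3 | ⟨i, r, k4, k5, k6, k7, k8⟩
            · exact absurd k3 hv'.2
            · exact ⟨(i, r), fun _ => ⟨k4, k5, k6, k7, k8, k1⟩⟩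
          · exact ⟨(0, 0), fun h' => absurd h' hv⟩
        choose ir hir using hch
        have hG2F : ∀ v ∈ G2, v ∈ F := by
          intro v hv
          rw [hG2, Finset.mem_filter] at hv
          exact (hGm v hv.1).1
        have hcell : ∀ a ∈ G2.image ir, ((G2.filter (fun v => ir v = a)).card : ℝ) ≤
            Cd ^ 2 * D * X ^ (ε / 4) := by
          intro a ha
          rw [Finset.mem_image] at ha
          obtain ⟨w, hw, rfl⟩ := ha
          obtain ⟨w1, w2, _, _, _, _⟩ := hir w hw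
          have h1 := hGd h0 (insert (ir w).2 K) (G2.filter (fun v => ir v = ir w)) hh0
            (by
              intro q hq
              rw [Finset.mem_insert] at hq
              rcases hq with rfl | hq
              · exact Nat.prime_of_mem_primeFactors w1
              · exact hKprime K hKm q hq)
            (by
              intro v hv
              rw [Finset.mem_filter] at hv
              obtain ⟨a1, _, _, a4, a5⟩ := hFv v (hG2F v hv.1)
              obtain ⟨_, _, _, _, b5, _⟩ := hir v hv.1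
              rw [hv.2] at b5
              exact ⟨a1, a4, a5, b5⟩)
          rw [Finset.card_insert_of_notMem w2] at h1
          refine h1.trans ?_
          have h2 := hCdK K hKm
          calc Cd ^ (K.card + 1 + 1) = Cd ^ 2 * Cd ^ K.card := by ring
            _ ≤ Cd ^ 2 * (D * X ^ (ε / 4)) := mul_le_mul_of_nonneg_left h2 (by positivity)
            _ = Cd ^ 2 * D * X ^ (ε / 4) := by ring
        have hval : ∀ i : Fin 3, (((G2.filter (fun v => (ir v).1 = i)).image
            (fun v => (ir v).2)).card : ℝ) ≤ X ^ (ε / 4) := by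
          intro i
          apply hF X h0 K i _ hXX0 hlg.le
          intro r hr
          rw [Finset.mem_image] at hr
          obtain ⟨v, hv, rfl⟩ := hr
          rw [Finset.mem_filter] at hv
          obtain ⟨b1, b2, b3, b4, _, b6⟩ := hir v hv.1
          obtain ⟨a1, a2, _, a4, a5⟩ := hFv v (hG2F v hv.1)
          rw [hv.2] at b3 b4
          refine ⟨Nat.prime_of_mem_primeFactors b1, b2, v, a1, a2, a4, a5, b6, ?_, b4⟩
          refine le_trans ?_ b3
          exact mul_le_mul_of_nonneg_left a4 hδ0.le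
        have himg : ((G2.image ir).card : ℝ) ≤ 3 * X ^ (ε / 4) := by
          have h1 : (G2.image ir).card ≤ ∑ i : Fin 3, ((G2.filter (fun v => (ir v).1 = i)).image
              (fun v => (ir v).2)).card := by
            have h2 : (G2.image ir).card =
                ∑ i : Fin 3, ((G2.image ir).filter (fun a => a.1 = i)).card :=
              Finset.card_eq_sum_card_fiberwise (fun a _ => Finset.mem_coe.2 (Finset.mem_univ a.1))
            rw [h2]
            apply Finset.sum_le_sum
            intro i _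
            apply Finset.card_le_card_of_injOn (fun a => a.2)
            · intro a ha
              rw [Finset.mem_coe, Finset.mem_filter, Finset.mem_image] at ha
              obtain ⟨⟨v, hv, rfl⟩, h3⟩ := ha
              rw [Finset.mem_coe, Finset.mem_image]
              exact ⟨v, Finset.mem_filter.2 ⟨hv, h3⟩, rfl⟩
            · intro a ha b hb hab
              rw [Finset.mem_coe, Finset.mem_filter] at ha hb
              exact Prod.ext (ha.2.trans hb.2.symm) hab
          have h3 : ((G2.image ir).card : ℝ) ≤ ∑ i : Fin 3,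
              (((G2.filter (fun v => (ir v).1 = i)).image (fun v => (ir v).2)).card : ℝ) := by
            exact_mod_cast h1
          refine h3.trans ?_
          calc ∑ i : Fin 3, (((G2.filter (fun v => (ir v).1 = i)).image
                (fun v => (ir v).2)).card : ℝ) ≤ ∑ _i : Fin 3, X ^ (ε / 4) :=
                Finset.sum_le_sum (fun i _ => hval i)
            _ = 3 * X ^ (ε / 4) := by
                rw [Finset.sum_const, nsmul_eq_mul]; simp
        have hG2c : (G2.card : ℝ) ≤ 3 * (Cd ^ 2 * D) * X ^ (ε / 2) := by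
          have h1 : G2.card = ∑ a ∈ G2.image ir, (G2.filter (fun v => ir v = a)).card :=
            Finset.card_eq_sum_card_fiberwise (fun v hv => Finset.mem_coe.2
              (Finset.mem_image_of_mem _ (Finset.mem_coe.1 hv)))
          rw [h1, Nat.cast_sum]
          calc ∑ a ∈ G2.image ir, ((G2.filter (fun v => ir v = a)).card : ℝ)
              ≤ ∑ _a ∈ G2.image ir, Cd ^ 2 * D * X ^ (ε / 4) := Finset.sum_le_sum hcell
            _ = ((G2.image ir).card : ℝ) * (Cd ^ 2 * D * X ^ (ε / 4)) := by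
                rw [Finset.sum_const, nsmul_eq_mul]
            _ ≤ (3 * X ^ (ε / 4)) * (Cd ^ 2 * D * X ^ (ε / 4)) :=
                mul_le_mul_of_nonneg_right himg (by positivity)
            _ = 3 * (Cd ^ 2 * D) * (X ^ (ε / 4) * X ^ (ε / 4)) := by ring
            _ = 3 * (Cd ^ 2 * D) * X ^ (ε / 2) := by
                rw [← Real.rpow_add hXpos]; congr 2; ring
        have hB' : ((G.filter (fun v => (2 + δ) * hh v ≤ mass K v)).card : ℝ) ≤
            Cd * D * X ^ (ε / 2) := by
          refine hB.trans ?_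
          have h2 := hCdK K hKm
          have h3 : X ^ (ε / 4) ≤ X ^ (ε / 2) :=
            Real.rpow_le_rpow_of_exponent_le hX (by linarith)
          calc Cd ^ (K.card + 1) = Cd * Cd ^ K.card := by ring
            _ ≤ Cd * (D * X ^ (ε / 4)) := mul_le_mul_of_nonneg_left h2 (by linarith)
            _ ≤ Cd * (D * X ^ (ε / 2)) :=
                mul_le_mul_of_nonneg_left (mul_le_mul_of_nonneg_left h3 (by linarith))
                  (by linarith)
            _ = Cd * D * X ^ (ε / 2) := by ring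
        rw [hsp, ← hG2]; push_cast
        calc _ ≤ Cd * D * X ^ (ε / 2) + 3 * (Cd ^ 2 * D) * X ^ (ε / 2) := add_le_add hB' hG2c
          _ = _ := by ring
      have b2 : (F.card : ℝ) ≤ (Cd * D + 3 * (Cd ^ 2 * D)) * Z := by
        have h1 : F.card = ∑ K ∈ F.image Kf, (F.filter (fun v => Kf v = K)).card :=
          Finset.card_eq_sum_card_fiberwise (fun v hv => Finset.mem_coe.2
            (Finset.mem_image_of_mem _ (Finset.mem_coe.1 hv)))
        rw [h1, Nat.cast_sum]
        have e1 := hmono (ε / 4 + ε / 2) (by linarith)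
        rw [Real.rpow_add hXpos] at e1
        calc ∑ K ∈ F.image Kf, ((F.filter (fun v => Kf v = K)).card : ℝ)
            ≤ ∑ _K ∈ F.image Kf, (Cd * D + 3 * (Cd ^ 2 * D)) * X ^ (ε / 2) :=
              Finset.sum_le_sum hfib
          _ = ((F.image Kf).card : ℝ) * ((Cd * D + 3 * (Cd ^ 2 * D)) * X ^ (ε / 2)) := by
              rw [Finset.sum_const, nsmul_eq_mul]
          _ ≤ (X ^ (ε / 4) * R) * ((Cd * D + 3 * (Cd ^ 2 * D)) * X ^ (ε / 2)) := by
              apply mul_le_mul_of_nonneg_right hScard (by positivity)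
          _ = (Cd * D + 3 * (Cd ^ 2 * D)) * (X ^ (ε / 4) * X ^ (ε / 2) * R) := by ring
          _ ≤ (Cd * D + 3 * (Cd ^ 2 * D)) * Z := mul_le_mul_of_nonneg_left e1 (by positivity)
      nlinarith

end Pool.ABY
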